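import Pool.Agent.K6.H7.UF.Ray

set_option autoImplicit false

/-! # The conditions on the facets for `G + y z` -/

namespace Pool.Agent.K6.H7.UF

open MvPolynomial
open Pool.Agent.W426.SM (gord IsRay face)
open Pool.Agent.W803.SM (gord_le exists_gord)
open Pool.Agent.W425.BF (BD)
open Pool.Agent.W425.SV (NP)
open Pool.Agent.TH216.MF (LocS SimH SimR InC)
open Pool.Agent.Y229.MS (exyz)

variable {r N : ℕ}

/-- the facets of the level `σ` are simplices or B1 in a common direction -/
def ComS {R : Type} [CommRing R] (v : Fin r → Fin N → ℕ) (h : MvPolynomial (Fin N) R) (σ : ℚ) :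
    Prop :=
  ∃ i, ∀ a : Fin N → ℕ, IsRay v a → 0 < gord v a →
    ((∑ x, a x : ℕ) : ℚ) / gord v a = σ → SimH v h a ∨ BD v h i a

theorem ComS.loc {R : Type} [CommRing R] {v : Fin r → Fin N → ℕ} {h : MvPolynomial (Fin N) R}
    {σ : ℚ} (hC : ComS v h σ) : LocS v h σ := by
  obtain ⟨i, hi⟩ := hC
  exact fun _ => ⟨i, fun a ha hg _ hs => hi a ha hg hs⟩

/-- `h` in the variables of `G + y z` -/
noncomputable def hyz {R : Type} [CommRing R] (h : MvPolynomial (Fin N) R) :
    MvPolynomial (Fin (N + 2)) R := rename (Fin.castAdd 2) h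

theorem mem_hyz {R : Type} [CommRing R] {h : MvPolynomial (Fin N) R} {w : Fin (N + 2) →₀ ℕ}
    (hw : w ∈ (hyz h).support) : ∃ w0 ∈ h.support, (∀ i, w (Fin.castAdd 2 i) = w0 i) ∧
      ∀ s, w (Fin.natAdd N s) = 0 := by
  classical
  unfold hyz at hw
  rw [support_rename_of_injective (Fin.castAdd_injective _ _), Finset.mem_image] at hw
  obtain ⟨w0, hw0, rfl⟩ := hw
  refine ⟨w0, hw0, fun i => ?_, fun s => ?_⟩
  · exact Finsupp.mapDomain_apply (Fin.castAdd_injective _ _) _ _
  · rw [Finsupp.mapDomain_of_notMem_range]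
    rintro ⟨i, hi⟩
    have := congrArg Fin.val hi
    simp only [Fin.val_castAdd, Fin.val_natAdd] at this
    omega

theorem exyz_inj {v : Fin r → Fin N → ℕ} (hv : Function.Injective v) :
    Function.Injective (exyz v) := by
  intro j j' hjj
  rcases Fin.eq_zero_or_eq_succ j with rfl | ⟨j, rfl⟩ <;>
    rcases Fin.eq_zero_or_eq_succ j' with rfl | ⟨j', rfl⟩
  · rfl
  · exfalso
    have h1 := congrFun hjj (Fin.natAdd N 0)
    simp [exyz] at h1
  · exfalso
    have h1 := congrFun hjj (Fin.natAdd N 0)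
    simp [exyz] at h1
  · congr 1
    apply hv
    funext i
    have h1 := congrFun hjj (Fin.castAdd 2 i)
    simpa [exyz] using h1

theorem exyz_ne {v : Fin r → Fin N → ℕ} (hv0 : ∀ j, v j ≠ 0) (j : Fin (r + 1)) :
    exyz v j ≠ 0 := by
  intro h0
  rcases Fin.eq_zero_or_eq_succ j with rfl | ⟨j, rfl⟩
  · have h1 := congrFun h0 (Fin.natAdd N 0)
    simp [exyz] at h1
  · apply hv0 j
    funext i
    have h1 := congrFun h0 (Fin.castAdd 2 i)
    simpa [exyz] using h1

theorem np_hyz {R : Type} [CommRing R] {v : Fin r → Fin N → ℕ} {h : MvPolynomial (Fin N) R}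
    (hh : ∀ w ∈ h.support, NP v w) : ∀ w ∈ (hyz h).support, NP (exyz v) w := by
  intro w hw
  obtain ⟨w0, hw0, h1, h2⟩ := mem_hyz hw
  obtain ⟨l, hl, hl1, hl2⟩ := hh w0 hw0
  refine ⟨Fin.cons 0 l, ?_, ?_, ?_⟩
  · intro j
    refine Fin.cases ?_ (fun j => ?_) j
    · rw [Fin.cons_zero]
    · rw [Fin.cons_succ]
      exact hl j
  · rw [Fin.sum_univ_succ]
    simp only [Fin.cons_zero, Fin.cons_succ, zero_add]
    exact hl1
  · intro i
    rw [Fin.sum_univ_succ]
    simp only [Fin.cons_zero, Fin.cons_succ, zero_mul, zero_add]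
    refine Fin.addCases (fun i => ?_) (fun s => ?_) i
    · rw [h1]
      simp only [exyz, Fin.cons_succ, Fin.append_left]
      exact hl2 i
    · rw [h2]
      simp [exyz]

/-- **The conditions for `G + y z`.** -/
theorem ComS.yz {R : Type} [CommRing R] (hr : 0 < r) {v : Fin r → Fin N → ℕ}
    {h : MvPolynomial (Fin N) R} {σ : ℚ} (hC : ComS v h σ) : ComS (exyz v) (hyz h) (σ + 1) := by
  classical
  obtain ⟨i, hi⟩ := hC
  refine ⟨Fin.castAdd 2 i, fun a ha hg hs => ?_⟩
  obtain ⟨h1, h2, h3, h4⟩ := ray_exyz hr v a ha hg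
  have hlev : ((∑ x, fx a x : ℕ) : ℚ) / gord v (fx a) = σ := by
    rw [tot, h3, ← h2] at hs
    have h5 : ((gord v (fx a) : ℕ) : ℚ) ≠ 0 := by
      rw [h2]
      exact_mod_cast hg.ne'
    push_cast at hs ⊢
    rw [add_div, div_self h5] at hs
    linarith
  have hface : ∀ j : Fin r, face (exyz v) a j.succ ↔ face v (fx a) j := by
    intro j
    rw [face_succ, ← h2]
    rfl
  have hws : ∀ w ∈ (hyz h).support, ∀ w0 : Fin N →₀ ℕ, (∀ i, w (Fin.castAdd 2 i) = w0 i) →
      (∀ s, w (Fin.natAdd N s) = 0) → ∑ x, a x * w x = ∑ x, fx a x * w0 x := by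
    intro w _ w0 e1 e2
    rw [Fin.sum_univ_add]
    simp only [e1, e2, mul_zero, Finset.sum_const_zero, add_zero]
    rfl
  rcases hi (fx a) h1 (by rw [h2]; exact hg) hlev with ⟨hS, hI⟩ | ⟨hai, j0, hf0, hv1, hu, hw⟩
  · left
    refine ⟨fun w hw0 hw1 => ?_, fun w hw he => ?_⟩
    · have hwz : w 0 = 0 := by
        rcases Nat.eq_zero_or_pos (ay a) with h5 | h5
        · have h6 : a (Fin.natAdd N 1) ≠ 0 := by
            have : az a ≠ 0 := by omega
            exact this
          have h7 := hw1 _ h6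
          rw [Fin.sum_univ_succ] at h7
          simpa [exyz] using h7
        · have h7 := hw1 (Fin.natAdd N 0) (Nat.pos_iff_ne_zero.1 h5)
          rw [Fin.sum_univ_succ] at h7
          simpa [exyz] using h7
      have h8 := hS (fun j => w j.succ) (fun j hj => hw0 _ fun h9 => hj ((hface j).1 h9))
        (fun i hi => by
          have h7 := hw1 (Fin.castAdd 2 i) hi
          rw [Fin.sum_univ_succ, hwz, zero_mul, zero_add] at h7
          simpa [exyz] using h7)
      intro j
      refine Fin.cases ?_ (fun j => ?_) j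
      · exact hwz
      · exact h8 j
    · obtain ⟨w0, hw0, e1, e2⟩ := mem_hyz hw
      obtain ⟨l, hl, -, hl1, hl2⟩ := hI w0 hw0 (by
        rw [← hws w hw w0 e1 e2, he, h2])
      refine ⟨Fin.cons 0 l, ?_, fun j hj => absurd (Finset.mem_univ j) hj, ?_, ?_⟩
      · intro j
        refine Fin.cases ?_ (fun j => ?_) j
        · rw [Fin.cons_zero]
        · rw [Fin.cons_succ]
          exact hl j
      · rw [Fin.sum_univ_succ]
        simp only [Fin.cons_zero, Fin.cons_succ, zero_add]
        exact hl1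
      · intro i
        rw [Fin.sum_univ_succ]
        simp only [Fin.cons_zero, Fin.cons_succ, zero_mul, zero_add]
        refine Fin.addCases (fun i => ?_) (fun s => ?_) i
        · rw [e1]
          simp only [exyz, Fin.cons_succ, Fin.append_left]
          exact hl2 i
        · rw [e2]
          simp [exyz]
  · right
    refine ⟨hai, j0.succ, (hface j0).2 hf0, ?_, fun j hj hne => ?_, fun w hw' he => ?_⟩
    · simpa [exyz] using hv1
    · rcases Fin.eq_zero_or_eq_succ j with rfl | ⟨j, rfl⟩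
      · simp [exyz]
      · have := hu j ((hface j).1 hj) (fun h => hne (by rw [h]))
        simpa [exyz] using this
    · obtain ⟨w0, hw0, e1, e2⟩ := mem_hyz hw'
      rcases hw w0 hw0 (by rw [← hws w hw' w0 e1 e2, he, h2]) with h5 | h5
      · left
        rw [e1]
        exact h5
      · right
        intro x
        refine Fin.addCases (fun x => ?_) (fun s => ?_) x
        · rw [e1, h5]
          simp [exyz]
        · rw [e2]
          simp [exyz]

end Pool.Agent.K6.H7.UF
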