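import Pool.Agent.K6.H7.UF.Main

set_option autoImplicit false

/-! # The main theorem for stably generic polynomials -/

namespace Pool.Agent.K6.H7.UF

open MvPolynomial Pool.Agent.H628R4.TP Pool.Agent.W425.MM Pool.Agent.W425.GN
open Pool.Agent.W425.ND (spa)
open Pool.Agent.W426.SM (gord IsRay face)
open Pool.Agent.W425.SV (NP)
open Pool.Agent.W428.MOT (zetaMu ratRingMu)
open Pool.Agent.Y229.MS (exyz addyz itr stabK shn)
open Pool.Agent.K6.H7.UE
open Pool.Agent.K6.H7.UG (itr_deg bf_addyz bf_iso bf_neg_one)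

/-- the functional equation of `f + ∑ y_j z_j` -/
theorem bf_itr {k : Type} [Field k] [Algebra k ℂ] {n : ℕ} {f : MvPolynomial (Fin n) k}
    (hf : f.totalDegree ≠ 0) {c : Polynomial ℂ}
    (hc : IsBFunction (map (algebraMap k ℂ) f) ((Polynomial.X + 1) * c)) :
    ∀ i : ℕ, IsBFunction (map (algebraMap k ℂ) (itr f i))
      ((Polynomial.X + 1) * c.comp (Polynomial.X + Polynomial.C (i : ℂ))) := by
  intro i
  induction i with
  | zero =>
    rw [Nat.cast_zero, map_zero, add_zero, Polynomial.comp_X]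
    exact hc
  | succ i ih =>
    have h1 := bf_addyz (itr_deg hf i) ih
    rw [Polynomial.comp_assoc] at h1
    have e : (Polynomial.X + Polynomial.C ((i : ℕ) : ℂ)).comp (Polynomial.X + 1) =
        (Polynomial.X + Polynomial.C (((i + 1 : ℕ) : ℕ) : ℂ) : Polynomial ℂ) := by
      rw [Polynomial.add_comp, Polynomial.X_comp, Polynomial.C_comp]
      push_cast
      rw [map_add, map_one]
      ring
    rw [e] at h1
    exact h1

theorem bf_iso' {k : Type} [Field k] [Algebra k ℂ] {n m : ℕ} {f : MvPolynomial (Fin n) k}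
    (φ : MvPolynomial (Fin n) k ≃ₐ[k] MvPolynomial (Fin m) k) {b : Polynomial ℂ}
    (h : IsBFunction (map (algebraMap k ℂ) f) b) :
    IsBFunction (map (algebraMap k ℂ) (φ f)) b := by
  have h1 : φ.symm (φ f) = f := φ.symm_apply_apply f
  refine bf_iso φ.symm ?_
  rw [h1]
  exact h

theorem map_G {F k : Type} [Field F] [Field k] [Algebra F ℂ] [Algebra F k] [Algebra k ℂ]
    [IsScalarTower F k ℂ] {N r : ℕ} (v : Fin r → Fin N → ℕ) (c : Fin r → k)
    (h : MvPolynomial (Fin N) F) :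
    map (algebraMap k ℂ) (spa v c + map (algebraMap F k) h) =
      spa v (fun j => algebraMap k ℂ (c j)) + map (algebraMap F ℂ) h := by
  rw [map_add, Pool.Agent.Y229.MS.map_spa, map_map, IsScalarTower.algebraMap_eq F k ℂ]

theorem spa_cons {k : Type} [Field k] {N r : ℕ} (v : Fin r → Fin N → ℕ) (c : Fin r → k) (t : k) :
    spa (exyz v) (Fin.cons t c : Fin (r + 1) → k) = rename (Fin.castAdd 2) (spa v c) +
      C t * (X (Fin.natAdd N 0) * X (Fin.natAdd N 1)) := by
  unfold spa exyz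
  rw [Fin.sum_univ_succ]
  simp only [Fin.cons_zero, Fin.cons_succ, Fin.prod_univ_add, Fin.append_left, Fin.append_right,
    pow_zero, pow_one, Finset.prod_const_one, one_mul, mul_one, map_sum, map_mul, map_prod,
    map_pow, rename_X, rename_C, Fin.prod_univ_two]
  exact add_comm _ _

/-- all the levels of the rays are good -/
def HypC {R : Type} [CommRing R] {N r : ℕ} (v : Fin r → Fin N → ℕ) (h : MvPolynomial (Fin N) R) :
    Prop :=
  ∀ a : Fin N → ℕ, IsRay v a → 0 < gord v a →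
    (∃ a' : Fin N → ℕ, 0 < gord v a' ∧ NonB v False a' ∧
      ((∑ i, a i : ℕ) : ℚ) / gord v a = ((∑ i, a' i : ℕ) : ℚ) / gord v a') ∨
    ComS v h (((∑ i, a i : ℕ) : ℚ) / gord v a)

/-- **The main theorem.** -/
theorem mainG {F : Type} [Field F] [Algebra F ℂ] {n κ r : ℕ} (hr : 0 < r)
    (v : Fin r → Fin (n + (κ + κ)) → ℕ) (hv : Function.Injective v) (hv0 : ∀ j, v j ≠ 0)
    (h : MvPolynomial (Fin (n + (κ + κ))) F) (hh : ∀ w ∈ h.support, NP v w) (hL : HypC v h) :
    ∃ g : MvPolynomial (Fin r) F, g ≠ 0 ∧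
      ∀ (k : Type) [Field k] [Algebra F k] [Algebra k ℂ] [IsScalarTower F k ℂ] (c : Fin r → k),
      aeval c g ≠ 0 → ∀ f : MvPolynomial (Fin n) k, f.totalDegree ≠ 0 →
      ∀ φ : MvPolynomial (Fin (n + (κ + κ))) k ≃ₐ[k] MvPolynomial (Fin (n + (κ + κ))) k,
      φ (stabK f κ) = spa v c + map (algebraMap F k) h →
      ∃ S : Finset (ℤ × ℤ),
        (∀ p ∈ S, 0 < p.2 ∧ (p = (-1, 1) ∨ (∃ a : Fin (n + (κ + κ)) → ℕ, IsRay v a ∧
            0 < gord v a ∧
            p = (-((∑ i, a i : ℕ) : ℤ) + κ * (gord v a : ℤ), (gord v a : ℤ)))) ∧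
          ∀ b : Polynomial ℂ, IsBFunction (map (algebraMap k ℂ) f) b →
            b.eval ((p.1 : ℂ) / p.2) = 0) ∧ zetaMu f ∈ ratRingMu f S := by
  classical
  have hne : NeZero r := ⟨by omega⟩
  obtain ⟨g0, hg0, H0⟩ := rootsR hr v hv h
  obtain ⟨g1, hg1, H1⟩ := genR hr v hv hv0 h hh
  obtain ⟨g2, hg2, H2⟩ := genR (Nat.succ_pos r) (exyz v) (exyz_inj hv) (exyz_ne hv0) (hyz h)
    (np_hyz hh)
  refine ⟨g0 * g1 * lcf g2, mul_ne_zero (mul_ne_zero hg0 hg1) (lcf_ne hg2),
    fun k _ _ _ _ c hc f hf φ hφ => ?_⟩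
  have hkc : CharZero k := RingHom.charZero (algebraMap k ℂ)
  rw [map_mul, map_mul] at hc
  have hc0 := left_ne_zero_of_mul (left_ne_zero_of_mul hc)
  have hc1 := right_ne_zero_of_mul (left_ne_zero_of_mul hc)
  have hc2 := right_ne_zero_of_mul hc
  have toC : ∀ {r' : ℕ} (g : MvPolynomial (Fin r') F) (c' : Fin r' → k), aeval c' g ≠ 0 →
      aeval (fun j => algebraMap k ℂ (c' j)) g ≠ 0 := by
    intro r' g c' hg h0
    apply hg
    have h1 : algebraMap k ℂ (aeval c' g) = 0 := by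
      rw [← h0, ← aeval_algebraMap_apply]
      rfl
    exact (map_eq_zero _).1 h1
  obtain ⟨t, ht0, ht⟩ := exists_t hc2
  obtain ⟨S1, hS1, hz1⟩ := H1 k c (toC g1 c hc1)
  obtain ⟨S2, hS2, hz2⟩ := H2 k (Fin.cons t c) (toC g2 _ ht)
  have H0' := H0 (fun j => algebraMap k ℂ (c j)) (toC g0 c hc0)
  set G : MvPolynomial (Fin (n + (κ + κ))) k := spa v c + map (algebraMap F k) h with hG
  -- the isomorphisms
  obtain ⟨ψ1, hψ1⟩ := Pool.Agent.Y405.MS.itr k f κ
  set ψ := ψ1.trans φ with hψ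
  have e1 : ψ (itr f κ) = G := by
    show φ (ψ1 (itr f κ)) = _
    rw [hψ1, hφ]
  obtain ⟨ψ', hψ'⟩ := Pool.Agent.Y405.MS.ext k ψ
  obtain ⟨D, hD⟩ := exists_scale t ht0 G
  have e2 : (ψ'.trans D) (addyz (itr f κ)) =
      spa (exyz v) (Fin.cons t c : Fin (r + 1) → k) + map (algebraMap F k) (hyz h) := by
    show D (ψ' (addyz (itr f κ))) = _
    rw [hψ', e1, hD, spa_cons, hG, map_add]
    unfold hyz
    rw [map_rename]
    ring
  -- the functional equations
  have hb1 : ∀ c' : Polynomial ℂ, IsBFunction (map (algebraMap k ℂ) f) ((Polynomial.X + 1) * c') →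
      IsBFunction (spa v (fun j => algebraMap k ℂ (c j)) + map (algebraMap F ℂ) h)
        ((Polynomial.X + 1) * c'.comp (Polynomial.X + Polynomial.C (κ : ℂ))) := by
    intro c' hc'
    have h1 := bf_iso' ψ (bf_itr hf hc' κ)
    rw [e1, hG, map_G] at h1
    exact h1
  have hb2 : ∀ c' : Polynomial ℂ, IsBFunction (map (algebraMap k ℂ) f) ((Polynomial.X + 1) * c') →
      IsBFunction (spa (exyz v) (fun j => algebraMap k ℂ ((Fin.cons t c : Fin (r + 1) → k) j)) +
        map (algebraMap F ℂ) (hyz h))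
        ((Polynomial.X + 1) * c'.comp (Polynomial.X + Polynomial.C ((κ + 1 : ℕ) : ℂ))) := by
    intro c' hc'
    have h1 := bf_iso' (ψ'.trans D) (f := addyz (itr f κ)) (bf_itr hf hc' (κ + 1))
    rw [e2, map_G] at h1
    exact h1
  -- roots of `f`
  have hroot : ∀ (q : ℚ) (b : Polynomial ℂ), IsBFunction (map (algebraMap k ℂ) f) b →
      (∀ c' : Polynomial ℂ, IsBFunction (map (algebraMap k ℂ) f) ((Polynomial.X + 1) * c') →
        c'.eval (q : ℂ) = 0) → b.eval (q : ℂ) = 0 := by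
    intro q b hb hq
    have h5 := bf_neg_one hf hb
    obtain ⟨c', hc'⟩ : (Polynomial.X + 1 : Polynomial ℂ) ∣ b := by
      have := Polynomial.dvd_iff_isRoot.2 h5
      simpa using this
    rw [hc', Polynomial.eval_mul, hq c' (hc' ▸ hb), mul_zero]
  -- the root at the level of a ray of `v`
  have hray : ∀ a : Fin (n + (κ + κ)) → ℕ, IsRay v a → 0 < gord v a →
      (ComS v h (((∑ i, a i : ℕ) : ℚ) / gord v a) →
        ∀ c' : Polynomial ℂ, IsBFunction (map (algebraMap k ℂ) f) ((Polynomial.X + 1) * c') →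
          c'.eval (((-((∑ i, a i : ℕ) : ℤ) + κ * (gord v a : ℤ) : ℤ) : ℂ) /
            ((gord v a : ℤ) : ℂ)) = 0) →
      ∀ b : Polynomial ℂ, IsBFunction (map (algebraMap k ℂ) f) b →
        b.eval (((-((∑ i, a i : ℕ) : ℤ) + κ * (gord v a : ℤ) : ℤ) : ℂ) /
          ((gord v a : ℤ) : ℂ)) = 0 := by
    intro a ha hg hcom b hb
    have hgC : ((gord v a : ℕ) : ℂ) ≠ 0 := by exact_mod_cast hg.ne'
    have ee : ((-((∑ i, a i : ℕ) : ℤ) + κ * (gord v a : ℤ) : ℤ) : ℂ) /
          ((gord v a : ℤ) : ℂ) = (((-(((∑ i, a i : ℕ) : ℚ) / gord v a)) + κ : ℚ) : ℂ) := by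
      push_cast
      field_simp
    rw [ee] at hcom ⊢
    refine hroot _ b hb fun c' hc' => ?_
    rcases hL a ha hg with ⟨a', hg', hn', he⟩ | hC
    · have h1 := H0' _ (hb1 c' hc') _ (pr_nonB v hv hv0 h hh a' hg' hn')
      rw [Polynomial.eval_comp, Polynomial.eval_add, Polynomial.eval_X, Polynomial.eval_C] at h1
      rw [he]
      push_cast at h1 ⊢
      exact h1
    · exact hcom hC c' hc'
  have hfin : ∀ a : Fin (n + (κ + κ)) → ℕ, 0 < gord v a → IsRay v a → ∀ x : ℤ × ℤ,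
      x = (-((∑ i, a i : ℕ) : ℤ) + κ * (gord v a : ℤ), (gord v a : ℤ)) →
      (∀ b : Polynomial ℂ, IsBFunction (map (algebraMap k ℂ) f) b →
        b.eval (((-((∑ i, a i : ℕ) : ℤ) + κ * (gord v a : ℤ) : ℤ) : ℂ) /
          ((gord v a : ℤ) : ℂ)) = 0) →
      0 < x.2 ∧ (x = (-1, 1) ∨ (∃ a : Fin (n + (κ + κ)) → ℕ, IsRay v a ∧
            0 < gord v a ∧
            x = (-((∑ i, a i : ℕ) : ℤ) + κ * (gord v a : ℤ), (gord v a : ℤ)))) ∧
          ∀ b : Polynomial ℂ, IsBFunction (map (algebraMap k ℂ) f) b →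
            b.eval ((x.1 : ℂ) / x.2) = 0 := by
    rintro a hg ha x rfl hb
    exact ⟨Int.natCast_pos.2 hg, Or.inr ⟨a, ha, hg, rfl⟩, hb⟩
  set S : Finset (ℤ × ℤ) := insert (-1, 1) (S1.image (fun q => (q.1 + κ * q.2, q.2)) ∪
    S2.image (fun q => (q.1 + ((κ + 1 : ℕ) : ℤ) * q.2, q.2))) with hS
  refine ⟨S, fun p hp => ?_, ?_⟩
  · rcases Finset.mem_insert.1 hp with rfl | hp
    · refine ⟨by norm_num, Or.inl rfl, fun b hb => ?_⟩
      have h6 : (((-1 : ℤ) : ℂ) / ((1 : ℤ) : ℂ)) = -1 := by norm_num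
      simp only [h6]
      exact bf_neg_one hf hb
    · rcases Finset.mem_union.1 hp with hp | hp
      · obtain ⟨q, hq, rfl⟩ := Finset.mem_image.1 hp
        obtain ⟨a, ha, hg, rfl, hq4⟩ := hS1 q hq
        refine ⟨Int.natCast_pos.2 hg, Or.inr ⟨a, ha, hg, rfl⟩, ?_⟩
        refine hray a ha hg fun hC c' hc' => ?_
        have h1 := hq4 (Or.inl hC.loc) _ (hb1 c' hc')
        rw [Polynomial.eval_comp, Polynomial.eval_add, Polynomial.eval_X, Polynomial.eval_C] at h1
        have hgC : ((gord v a : ℤ) : ℂ) ≠ 0 := by exact_mod_cast hg.ne'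
        rw [← h1]
        congr 1
        push_cast at hgC ⊢
        field_simp
      · obtain ⟨q, hq, rfl⟩ := Finset.mem_image.1 hp
        obtain ⟨a', ha', hg', rfl, hq4⟩ := hS2 q hq
        obtain ⟨r1, r2, r3, -⟩ := ray_exyz hr v a' ha' hg'
        have hg : 0 < gord v (fx a') := by rw [r2]; exact hg'
        have hpe : ((-((∑ i, a' i : ℕ) : ℤ) + ((κ + 1 : ℕ) : ℤ) * (gord (exyz v) a' : ℤ),
            (gord (exyz v) a' : ℤ)) : ℤ × ℤ) =
            (-((∑ i, fx a' i : ℕ) : ℤ) + κ * (gord v (fx a') : ℤ), (gord v (fx a') : ℤ)) := by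
          rw [r2, tot, r3, Prod.mk.injEq]
          refine ⟨?_, rfl⟩
          push_cast
          ring
        refine hfin (fx a') hg r1 _ hpe ?_
        refine hray (fx a') r1 hg fun hC c' hc' => ?_
        have hgC : ((gord v (fx a') : ℕ) : ℂ) ≠ 0 := by exact_mod_cast hg.ne'
        have hgQ : ((gord v (fx a') : ℕ) : ℚ) ≠ 0 := by exact_mod_cast hg.ne'
        have hlev : ((∑ i, a' i : ℕ) : ℚ) / gord (exyz v) a' =
            ((∑ i, fx a' i : ℕ) : ℚ) / gord v (fx a') + 1 := by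
          rw [tot, r3, ← r2]
          push_cast
          field_simp
        have h1 := hq4 (Or.inl (by
          rw [hlev]
          exact (hC.yz hr).loc)) _ (hb2 c' hc')
        rw [Polynomial.eval_comp, Polynomial.eval_add, Polynomial.eval_X, Polynomial.eval_C] at h1
        rw [← h1]
        congr 1
        simp only
        rw [tot, r3, ← r2]
        push_cast
        field_simp
        ring
  · have p1 : ∀ p ∈ S1, 0 < p.2 := by
      intro p hp
      obtain ⟨a, -, hg, rfl, -⟩ := hS1 p hp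
      exact Int.natCast_pos.2 hg
    have p2 : ∀ p ∈ S2, 0 < p.2 := by
      intro p hp
      obtain ⟨a, -, hg, rfl, -⟩ := hS2 p hp
      exact Int.natCast_pos.2 hg
    rw [← e1] at hz1
    rw [← e2] at hz2
    have z1 := hz1.iso p1 (by ring) ψ.symm
    have z2 := hz2.iso p2 (by ring) (ψ'.trans D).symm
    rw [AlgEquiv.symm_apply_apply] at z1 z2
    have z3 := descendE f κ S1 S2 p1 p2 z1 z2
    refine rat_mono ?_ (zeta_of_fst z3)
    rintro p (rfl | ⟨q, hq, rfl⟩ | ⟨q, hq, rfl⟩)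
    · exact Finset.mem_coe.2 (Finset.mem_insert_self _ _)
    · exact Finset.mem_coe.2 (Finset.mem_insert_of_mem (Finset.mem_union_left _
        (Finset.mem_image_of_mem (fun q : ℤ × ℤ => (q.1 + (κ : ℤ) * q.2, q.2)) hq)))
    · exact Finset.mem_coe.2 (Finset.mem_insert_of_mem (Finset.mem_union_right _
        (Finset.mem_image_of_mem (fun q : ℤ × ℤ => (q.1 + ((κ + 1 : ℕ) : ℤ) * q.2, q.2)) hq)))

end Pool.Agent.K6.H7.UF
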