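import Pool.Agent.K6.H7.UE.Four
import Pool.Agent.K6.H7.UE.Tr
import Pool.Agent.TH216.MF.MotM

set_option autoImplicit false

/-! # Generic coefficients: the refined equivariant form -/

namespace Pool.Agent.K6.H7.UF

open MvPolynomial Pool.Agent.H628R4.TP Pool.Agent.W425.MM Pool.Agent.W425.GN
open Pool.Agent.W425.ND (spa)
open Pool.Agent.W426.SM (gord IsRay face)
open Pool.Agent.W425.BF (B1 BD shf shf_eval shf_ne hz hz_support hz_eq cof gen_rootsJ hp_nonB
  spa_add)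
open Pool.Agent.W425.SV (NP RelV Kil1)
open Pool.Agent.TH216.MF (RelG KilU kept ke LocS ke_mem relG_of_relV relG_ext rel_of_not_HP)
open Pool.Agent.TH216.MC
open Pool.Agent.W428.MOT (Pt Constr ratRing sp LuMu InRat zetaE ratRingMu zetaMu)
open Pool.Agent.K6.H7.UE

variable {r N : ℕ}

open Classical in
/-- `α` is a root of all `c` such that `(s + 1) c(s)` is in the Bernstein-Sato ideal of the generic
polynomial -/
def PR {F : Type} [Field F] (v : Fin r → Fin N → ℕ) (h : MvPolynomial (Fin N) F) (α : ℚ) : Prop :=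
  HP v h α (if α = -1 then 1 else 0)

theorem relR [NeZero r] {F : Type} [Field F] (v : Fin r → Fin N → ℕ)
    (hv : Function.Injective v) (hv0 : ∀ j, v j ≠ 0) (h : MvPolynomial (Fin N) F)
    (hh : ∀ w ∈ h.support, NP v w) (α : ℚ) (hn : ¬ PR v h α) :
    ∃ (θ : Fin (r + (kept v h).card) → ℤ) (p : Polynomial ℂ),
      RelG (Fin.append v (ke v h)) (Kil1 (Fin.append v (ke v h)))
        (KilU (Fin.append v (ke v h)) θ) p ∧ p.eval (α : ℂ) ≠ 0 := by
  by_cases hα : α = -1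
  · subst hα
    unfold PR at hn
    rw [if_pos rfl] at hn
    obtain ⟨θ, p, hp0, hrel, hmult⟩ := rel_of_not_HP v hv hv0 h hh (-1) 1 hn
    refine ⟨θ, p, hrel, fun h0 => ?_⟩
    have hne : (Polynomial.X + 1 : Polynomial ℂ) * p ≠ 0 :=
      mul_ne_zero (Polynomial.X_add_C_ne_zero 1) hp0
    have h1 : (Polynomial.X - Polynomial.C (((-1 : ℚ) : ℚ) : ℂ)) ^ 2 ∣
        (Polynomial.X + 1 : Polynomial ℂ) * p := by
      have h2 : (Polynomial.X - Polynomial.C (((-1 : ℚ) : ℚ) : ℂ)) ∣ p :=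
        Polynomial.dvd_iff_isRoot.2 h0
      have h3 : (Polynomial.X + 1 : Polynomial ℂ) =
          Polynomial.X - Polynomial.C (((-1 : ℚ) : ℚ) : ℂ) := by
        push_cast
        rw [map_neg, map_one, sub_neg_eq_add]
      rw [sq, h3]
      exact mul_dvd_mul_left _ h2
    have h2 := (Polynomial.le_rootMultiplicity_iff hne).2 h1
    omega
  · unfold PR at hn
    rw [if_neg hα] at hn
    exact relF v hv hv0 h hh α hn

theorem rootsR {F : Type} [Field F] [Algebra F ℂ] (hr : 0 < r) (v : Fin r → Fin N → ℕ)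
    (hv : Function.Injective v) (h : MvPolynomial (Fin N) F) :
    ∃ g : MvPolynomial (Fin r) F, g ≠ 0 ∧ ∀ c : Fin r → ℂ, aeval c g ≠ 0 →
      ∀ c' : Polynomial ℂ, IsBFunction (spa v c + MvPolynomial.map (algebraMap F ℂ) h)
        ((Polynomial.X + 1) * c') → ∀ α : ℚ, PR v h α → c'.eval (α : ℂ) = 0 := by
  have hne : NeZero r := ⟨by omega⟩
  obtain ⟨g, hg, hgb⟩ := univ pF4 pR1 hr v hv h
  refine ⟨g, hg, fun c hc c' hb α hα => ?_⟩
  by_cases hα1 : α = -1
  · subst hα1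
    unfold PR at hα
    rw [if_pos rfl] at hα
    have h2 := hgb c hc _ ((bfun_iff _ _).1 hb) (-1) 1 hα
    have h3 : (Polynomial.X + 1 : Polynomial ℂ) =
        Polynomial.X - Polynomial.C (((-1 : ℚ) : ℚ) : ℂ) := by
      push_cast
      rw [map_neg, map_one, sub_neg_eq_add]
    rw [h3, show 1 + 1 = 2 from rfl, sq] at h2
    have h4 := (mul_dvd_mul_iff_left (Polynomial.X_sub_C_ne_zero (((-1 : ℚ) : ℚ) : ℂ))).1 h2
    exact Polynomial.dvd_iff_isRoot.1 h4
  · unfold PR at hα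
    rw [if_neg hα1] at hα
    have h2 := hgb c hc _ ((bfun_iff _ _).1 hb) α 0 hα
    rw [zero_add, pow_one, Polynomial.dvd_iff_isRoot] at h2
    have h3 : ((Polynomial.X + 1 : Polynomial ℂ) * c').eval (α : ℂ) = 0 := h2
    rw [Polynomial.eval_mul, Polynomial.eval_add, Polynomial.eval_X, Polynomial.eval_one] at h3
    rcases mul_eq_zero.1 h3 with h4 | h4
    · exfalso
      apply hα1
      have h5 : (α : ℂ) = ((-1 : ℚ) : ℂ) := by
        push_cast
        linear_combination h4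
      exact_mod_cast h5
    · exact h4

theorem pr_nonB [NeZero r] {F : Type} [Field F] (v : Fin r → Fin N → ℕ)
    (hv : Function.Injective v) (hv0 : ∀ j, v j ≠ 0) (h : MvPolynomial (Fin N) F)
    (hh : ∀ w ∈ h.support, NP v w)
    (u : Fin N → ℕ) (hgu : 0 < gord v u) (hu : NonB v False u) :
    PR v h (-(((∑ i, u i : ℕ) : ℚ) / gord v u)) := by
  intro F' _ _ a h' ha hs b hb
  have hb' := (Pool.Agent.W591.GC.J_bot _ b).2 ((bfun_iff _ _).2 hb)
  have hbot : ∀ g ∈ (⊥ : Submonoid (MvPolynomial (Fin N) ℂ)),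
      MvPolynomial.constantCoeff g = 1 ∧ (¬ False → g = 1) := fun g hg => by
    rw [Submonoid.mem_bot] at hg
    exact ⟨by rw [hg, map_one], fun _ => hg⟩
  have hh' : ∀ w ∈ h'.support, Pool.Agent.W425.SV.NP v w := fun w hw => hh w (hs w hw)
  by_cases hb0 : b = 0
  · subst hb0
    exact dvd_zero _
  obtain ⟨θ, hθ, hR⟩ := a5s Pool.Agent.W688.MM.a1
    (a4 Pool.Agent.W318.MM.a2 Pool.Agent.W554.MM.taskA3) v False u hgu hu
  obtain ⟨p, q, hbp, hp⟩ := Pool.Agent.W422.GC.rel_of_unit False ⊥ hbot v a hv hv0 ha h' hh' θ hθ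
    b hb0 hb'
  have h1 := hR p hp
  have e1 : ((-(((∑ i, u i : ℕ) : ℚ) / gord v u) : ℚ) : ℂ) =
      -(((∑ i, u i : ℕ) : ℂ) / gord v u) := by
    push_cast
    ring
  have h2 : (Polynomial.X - Polynomial.C ((-(((∑ i, u i : ℕ) : ℚ) / gord v u) : ℚ) : ℂ)) ∣ p := by
    rw [Polynomial.dvd_iff_isRoot]
    show p.eval _ = 0
    rw [e1]
    exact h1
  rw [hbp]
  refine Dvd.dvd.mul_right ?_ q
  by_cases hα : -(((∑ i, u i : ℕ) : ℚ) / gord v u) = -1
  · rw [if_pos hα, show 1 + 1 = 2 from rfl, sq]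
    refine mul_dvd_mul ?_ h2
    rw [hα]
    have h3 : (Polynomial.X + 1 : Polynomial ℂ) =
        Polynomial.X - Polynomial.C (((-1 : ℚ) : ℚ) : ℂ) := by
      push_cast
      rw [map_neg, map_one, sub_neg_eq_add]
    rw [h3]
  · rw [if_neg hα, zero_add, pow_one]
    exact Dvd.dvd.mul_left h2 _

end Pool.Agent.K6.H7.UF
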