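import Pool.Agent.K6.H7.UF.Gen

set_option autoImplicit false

/-! # Generic coefficients: the refined equivariant form, conclusion -/

namespace Pool.Agent.K6.H7.UF

open MvPolynomial Pool.Agent.H628R4.TP Pool.Agent.W425.MM Pool.Agent.W425.GN
open Pool.Agent.W425.ND (spa)
open Pool.Agent.W426.SM (gord IsRay face)
open Pool.Agent.W425.BF (B1 BD shf shf_eval shf_ne hz hz_support hz_eq cof gen_rootsJ hp_nonB
  spa_add)
open Pool.Agent.W425.SV (NP RelV Kil1)
open Pool.Agent.TH216.MF (RelG KilU kept ke LocS ke_mem relG_of_relV relG_ext rel_of_not_HP)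
open Pool.Agent.TH216.MC
open Pool.Agent.W428.MOT (Pt Constr ratRing sp LuMu InRat zetaE ratRingMu zetaMu)
open Pool.Agent.K6.H7.UE

variable {r N : ℕ}

/-- the level `σ` is good: simplices and B1-facets, or a simplex which is not B1 -/
def GoodL {R : Type} [CommRing R] (v : Fin r → Fin N → ℕ) (h : MvPolynomial (Fin N) R) (σ : ℚ) :
    Prop :=
  LocS v h σ ∨ ∃ a' : Fin N → ℕ, 0 < gord v a' ∧ NonB v False a' ∧
    σ = ((∑ i, a' i : ℕ) : ℚ) / gord v a'

/-- the conclusion for all the coefficients `c` with `g(c) ≠ 0` -/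
def ConR {F : Type} [Field F] [Algebra F ℂ]
    (v : Fin r → Fin N → ℕ) (h : MvPolynomial (Fin N) F) (g : MvPolynomial (Fin r) F) : Prop :=
  ∀ (k : Type) [Field k] [Algebra F k] [Algebra k ℂ]
      [IsScalarTower F k ℂ] (c : Fin r → k), aeval (fun j => algebraMap k ℂ (c j)) g ≠ 0 →
      ∃ S : Finset (ℤ × ℤ),
        (∀ p ∈ S, ∃ a : Fin N → ℕ, IsRay v a ∧ 0 < gord v a ∧
          p = (-((∑ i, a i : ℕ) : ℤ), (gord v a : ℤ)) ∧
          (GoodL v h (((∑ i, a i : ℕ) : ℚ) / gord v a) →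
            ∀ c' : Polynomial ℂ, IsBFunction
              (spa v (fun j => algebraMap k ℂ (c j)) + MvPolynomial.map (algebraMap F ℂ) h)
              ((Polynomial.X + 1) * c') → c'.eval ((p.1 : ℂ) / p.2) = 0)) ∧
        InE (spa v c + MvPolynomial.map (algebraMap F k) h) S

theorem genR0 {F : Type} [Field F] [Algebra F ℂ] (hr : 0 < r)
    (v : Fin r → Fin N → ℕ) (hv : Function.Injective v) (hv0 : ∀ j, v j ≠ 0)
    (h : MvPolynomial (Fin N) F) (hh : ∀ w ∈ h.support, NP v w)
    (hvh : ∀ w ∈ h.support, ∀ j, ¬ ∀ x, w x = v j x) :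
    ∃ g : MvPolynomial (Fin r) F, g ≠ 0 ∧ ConR v h g := by
  classical
  have hne : NeZero r := ⟨by omega⟩
  obtain ⟨g1, hg1, h1⟩ := rootsR hr v hv h
  obtain ⟨g2, hg2, h2⟩ := gen_nonDF pF4 hr v (we h) (we_np v h hh) (wc h)
  have hg3 : (∏ j : Fin r, (X j : MvPolynomial (Fin r) F)) ≠ 0 :=
    Finset.prod_ne_zero_iff.2 fun j _ => X_ne_zero j
  refine ⟨g1 * g2 * ∏ j : Fin r, (X j : MvPolynomial (Fin r) F),
    mul_ne_zero (mul_ne_zero hg1 hg2) hg3, fun k _ _ _ _ c hc => ?_⟩
  rw [map_mul, map_mul, map_prod] at hc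
  have hcne : ∀ j, c j ≠ 0 := by
    intro j hj
    have h5 := Finset.prod_ne_zero_iff.1 (right_ne_zero_of_mul hc) j (Finset.mem_univ j)
    rw [aeval_X, hj, map_zero] at h5
    exact h5 rfl
  have hb := h1 _ (left_ne_zero_of_mul (left_ne_zero_of_mul hc))
  have hnd := h2 _ (right_ne_zero_of_mul (left_ne_zero_of_mul hc))
  have hnk : NonD (Fin.append v (we h)) (fun j => algebraMap k ℂ
      (Fin.append c (fun l => algebraMap F k (wc h l)) j)) := by
    rw [append_map]
    simp only [← IsScalarTower.algebraMap_apply F k ℂ]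
    exact hnd
  have hray := pRAY v (we h) hr (we_np v h hh)
  obtain ⟨S, hS, hz⟩ := fourE (Fin.append v (we h)) (by omega) _
    (hb_gen hr v hv h hh hvh (PR v h) fun α hα => relR v hv hv0 h hh α hα)
  refine ⟨S, fun p hp => ?_, ?_⟩
  · obtain ⟨a, ha, hg, hn, rfl⟩ := hS p hp
    obtain ⟨hga, hra⟩ := hray a
    rw [hga] at hg hn
    rw [hga]
    refine ⟨a, hra ha, hg, rfl, fun hgood c' hc' => ?_⟩
    have hP : PR v h (-(((∑ i, a i : ℕ) : ℚ) / gord v a)) := by
      rcases hgood with hL | ⟨a', hg', hn', he⟩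
      · by_contra hcon
        exact hn ⟨hL, hcon⟩
      · rw [he]
        exact pr_nonB v hv hv0 h hh a' hg' hn'
    have h3 := hb c' hc' _ hP
    rw [← h3]
    congr 1
    push_cast
    ring
  · have hkc : CharZero k := RingHom.charZero (algebraMap k ℂ)
    rw [sp_eq]
    refine hz k _ (nonG_of_nonD _ _
      (nonD_ext (k := k) (L := AlgebraicClosure k) _ _ hnk)) (fun j => ?_)
    refine Fin.addCases (fun j => ?_) (fun l => ?_) j
    · rw [Fin.append_left]
      exact hcne j
    · rw [Fin.append_right]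
      exact (map_ne_zero _).2 (mem_support_iff.1 (h.support.equivFin.symm l).2)

lemma goodL_hz {F : Type} [Field F] (v : Fin r → Fin N → ℕ) (hv : Function.Injective v)
    (h : MvPolynomial (Fin N) F) (σ : ℚ) (hB : GoodL v h σ) : GoodL v (hz v h) σ :=
  hB.imp (fun h1 => locS_hz' v hv h σ h1) id

/-- the shift of the coefficients -/
theorem conR_shift {F : Type} [Field F] [Algebra F ℂ] (v : Fin r → Fin N → ℕ)
    (hv : Function.Injective v)
    (h : MvPolynomial (Fin N) F) (g : MvPolynomial (Fin r) F) (hC : ConR v (hz v h) g) :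
    ConR v h (shf (cof v h) g) := by
  intro k _ _ _ _ c hc
  have hmap : ∀ {K : Type} [Field K] (φ : F →+* K) (c' : Fin r → K),
      spa v c' + MvPolynomial.map φ h =
        spa v (fun j => c' j + φ (cof v h j)) + MvPolynomial.map φ (hz v h) := by
    intro K _ φ c'
    rw [spa_add]
    unfold hz
    rw [map_sub, map_spa]
    ring
  rw [shf_eval] at hc
  have e : (fun j => algebraMap k ℂ (c j + algebraMap F k (cof v h j))) =
      fun j => algebraMap k ℂ (c j) + algebraMap F ℂ (cof v h j) := by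
    funext j
    rw [map_add, ← IsScalarTower.algebraMap_apply]
  have hc' : aeval (fun j => algebraMap k ℂ (c j + algebraMap F k (cof v h j))) g ≠ 0 := by
    rw [e]
    exact hc
  obtain ⟨S, hS, hz2⟩ := hC k (fun j => c j + algebraMap F k (cof v h j)) hc'
  refine ⟨S, fun p hp => ?_, ?_⟩
  · obtain ⟨a, h1, h2, h3, h4⟩ := hS p hp
    refine ⟨a, h1, h2, h3, fun hgood c' hb => h4 (goodL_hz v hv h _ hgood) c' ?_⟩
    rw [hmap] at hb
    rw [e]
    exact hb
  · rw [hmap]
    exact hz2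

/-- **Generic coefficients, refined and equivariant.** -/
theorem genR {F : Type} [Field F] [Algebra F ℂ] (hr : 0 < r)
    (v : Fin r → Fin N → ℕ) (hv : Function.Injective v) (hv0 : ∀ j, v j ≠ 0)
    (h : MvPolynomial (Fin N) F) (hh : ∀ w ∈ h.support, NP v w) :
    ∃ g : MvPolynomial (Fin r) F, g ≠ 0 ∧ ConR v h g := by
  have hh' : ∀ w ∈ (hz v h).support, NP v w := fun w hw => hh w ((hz_support v hv h).1 w hw)
  obtain ⟨g, hg, hgc⟩ := genR0 hr v hv hv0 (hz v h) hh' (hz_support v hv h).2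
  exact ⟨shf (cof v h) g, shf_ne _ _ hg, conR_shift v hv h g hgc⟩

end Pool.Agent.K6.H7.UF
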