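import Pool.Agent.K6.H7.UF.Com
import Pool.Agent.K6.H7.UE.Ind
import Pool.Agent.K6.H7.UG.Tr

set_option autoImplicit false

/-! # Polynomials which become generic after the addition of `∑ y_i z_i` -/

namespace Pool.Agent.K6.H7.UF

open MvPolynomial Pool.Agent.H628R4.TP Pool.Agent.W425.MM Pool.Agent.W425.GN
open Pool.Agent.W425.ND (spa)
open Pool.Agent.W426.SM (gord IsRay face)
open Pool.Agent.W425.SV (NP)
open Pool.Agent.W428.MOT (zetaMu ratRingMu)
open Pool.Agent.Y229.MS (exyz addyz itr stabK shn)
open Pool.Agent.K6.H7.UE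
open Pool.Agent.K6.H7.UG (itr_deg bf_addyz bf_iso bf_neg_one)

section choose

variable {F k : Type} [Field F] [Field k] [Algebra F k] {r : ℕ}

/-- the leading coefficient in the first variable -/
noncomputable def lcf (g : MvPolynomial (Fin (r + 1)) F) : MvPolynomial (Fin r) F :=
  (finSuccEquiv F r g).leadingCoeff

theorem lcf_ne {g : MvPolynomial (Fin (r + 1)) F} (hg : g ≠ 0) : lcf g ≠ 0 := by
  unfold lcf
  rw [Ne, Polynomial.leadingCoeff_eq_zero]
  intro h
  apply hg
  exact (finSuccEquiv F r).injective (by rw [h, map_zero])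

theorem exists_t [CharZero k] {g : MvPolynomial (Fin (r + 1)) F} {c : Fin r → k}
    (hc : aeval c (lcf g) ≠ 0) : ∃ t : k, t ≠ 0 ∧ aeval (Fin.cons t c : Fin (r + 1) → k) g ≠ 0 := by
  set gk : MvPolynomial (Fin (r + 1)) k := map (algebraMap F k) g with hgk
  have hcoef : ∀ i, (finSuccEquiv k r gk).coeff i =
      map (algebraMap F k) ((finSuccEquiv F r g).coeff i) := by
    intro i
    ext m
    rw [finSuccEquiv_coeff_coeff, hgk, coeff_map, coeff_map, finSuccEquiv_coeff_coeff]
  set P : Polynomial k := Polynomial.map (eval c) (finSuccEquiv k r gk) with hP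
  have hPne : P ≠ 0 := by
    intro h0
    apply hc
    have h1 := congrArg (fun p => Polynomial.coeff p (finSuccEquiv F r g).natDegree) h0
    simp only [hP, Polynomial.coeff_map, hcoef, Polynomial.coeff_zero] at h1
    rw [eval_map] at h1
    rw [aeval_def]
    exact h1
  have hXP : Polynomial.X * P ≠ 0 := mul_ne_zero Polynomial.X_ne_zero hPne
  obtain ⟨t, ht⟩ := Polynomial.exists_eval_ne_zero_of_natDegree_lt_card (Polynomial.X * P) hXP
    (by
      have : Infinite k := CharZero.infinite k
      exact lt_of_lt_of_le (Cardinal.natCast_lt_aleph0) (Cardinal.aleph0_le_mk k))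
  rw [Polynomial.eval_mul, Polynomial.eval_X] at ht
  refine ⟨t, left_ne_zero_of_mul ht, ?_⟩
  have h2 := right_ne_zero_of_mul ht
  rw [hP, ← eval_eq_eval_mv_eval', hgk, eval_map] at h2
  rw [aeval_def]
  exact h2

end choose

section scale

variable {k : Type} [Field k] {N r : ℕ}

/-- the automorphism `x_i ↦ s_i x_i` -/
noncomputable def scl (s : Fin N → k) (hs : ∀ i, s i ≠ 0) :
    MvPolynomial (Fin N) k ≃ₐ[k] MvPolynomial (Fin N) k :=
  AlgEquiv.ofAlgHom (aeval fun i => C (s i) * X i) (aeval fun i => C (s i)⁻¹ * X i)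
    (by
      refine MvPolynomial.algHom_ext fun i => ?_
      rw [AlgHom.comp_apply, aeval_X, map_mul, aeval_X, AlgHom.id_apply]
      rw [show (aeval fun i => C (s i) * X i : MvPolynomial (Fin N) k →ₐ[k] _) (C (s i)⁻¹) =
        C (s i)⁻¹ from AlgHom.commutes _ _, ← mul_assoc, ← C_mul, inv_mul_cancel₀ (hs i), C_1,
        one_mul])
    (by
      refine MvPolynomial.algHom_ext fun i => ?_
      rw [AlgHom.comp_apply, aeval_X, map_mul, aeval_X, AlgHom.id_apply]
      rw [show (aeval fun i => C (s i)⁻¹ * X i : MvPolynomial (Fin N) k →ₐ[k] _) (C (s i)) =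
        C (s i) from AlgHom.commutes _ _, ← mul_assoc, ← C_mul, mul_inv_cancel₀ (hs i), C_1,
        one_mul])

/-- `G + y z` becomes `G + t y z` -/
theorem exists_scale (t : k) (ht : t ≠ 0) (G : MvPolynomial (Fin N) k) :
    ∃ D : MvPolynomial (Fin (N + 2)) k ≃ₐ[k] MvPolynomial (Fin (N + 2)) k,
      D (addyz G) = rename (Fin.castAdd 2) G +
        C t * (X (Fin.natAdd N 0) * X (Fin.natAdd N 1)) := by
  refine ⟨scl (Fin.append (fun _ => 1) (fun s => if s = 0 then t else 1)) (fun i => ?_), ?_⟩
  · refine Fin.addCases (fun i => ?_) (fun s => ?_) i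
    · rw [Fin.append_left]
      exact one_ne_zero
    · rw [Fin.append_right]
      split_ifs
      · exact ht
      · exact one_ne_zero
  · unfold addyz
    rw [map_add]
    congr 1
    · change aeval _ (rename (Fin.castAdd 2) G) = _
      rw [aeval_rename]
      have e : ((fun i => C ((Fin.append (fun _ : Fin N => (1 : k))
          (fun s : Fin 2 => if s = 0 then t else 1)) i) * X i :
            Fin (N + 2) → MvPolynomial (Fin (N + 2)) k) ∘ Fin.castAdd 2) =
          fun i => X (Fin.castAdd 2 i) := by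
        funext i
        simp
      rw [e]
      exact congrFun (congrArg DFunLike.coe (MvPolynomial.algHom_ext (fun i => by
        rw [aeval_X, rename_X]) : (aeval fun i => X (Fin.castAdd 2 i) :
          MvPolynomial (Fin N) k →ₐ[k] MvPolynomial (Fin (N + 2)) k) =
            rename (Fin.castAdd 2))) G
    · change aeval _ (X (Fin.natAdd N 0) * X (Fin.natAdd N 1)) = _
      rw [map_mul, aeval_X, aeval_X, Fin.append_right, Fin.append_right, if_pos rfl,
        if_neg (by decide)]
      rw [C_1]
      ring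

end scale

end Pool.Agent.K6.H7.UF
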