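import Pool.Agent.K6.H7.UF.Fin
import Pool.Agent.Y925.MS.GK

set_option autoImplicit false

/-! # Compositions: the signs -/

namespace Pool.Agent.K6.H7.UF

open MvPolynomial
open Pool.Agent.Y229.RE (xv yv zv)

variable {k : Type} [Field k] {n κ : ℕ}

/-- the variables `x, z` among `x, y, z` -/
def exz : Fin (n + κ) → Fin (n + (κ + κ)) :=
  Fin.addCases (Fin.castAdd (κ + κ)) fun i => Fin.natAdd n (Fin.natAdd κ i)

/-- `Φ(x, z) + ∑ y_i (γ_i z_i - p_i(x))` -/
noncomputable def gph (γ : Fin κ → k) (p : Fin κ → MvPolynomial (Fin n) k)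
    (Φ : MvPolynomial (Fin (n + κ)) k) : MvPolynomial (Fin (n + (κ + κ))) k :=
  rename exz Φ + ∑ i : Fin κ, X (Fin.natAdd n (Fin.castAdd κ i)) *
    (C (γ i) * X (Fin.natAdd n (Fin.natAdd κ i)) - rename (Fin.castAdd (κ + κ)) (p i))

theorem exz_l (i : Fin n) : exz (Fin.castAdd κ i) = xv κ i := Fin.addCases_left _

theorem exz_r (i : Fin κ) : exz (Fin.natAdd n i) = zv n i := Fin.addCases_right _

theorem exz_ne (i : Fin κ) (j : Fin (n + κ)) : exz j ≠ yv n i := by
  refine Fin.addCases (fun j => ?_) (fun j => ?_) j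
  · rw [exz_l]
    intro h
    have := congrArg Fin.val h
    simp only [xv, yv, Fin.val_castAdd, Fin.val_natAdd] at this
    omega
  · rw [exz_r]
    intro h
    have := congrArg Fin.val h
    simp only [zv, yv, Fin.val_castAdd, Fin.val_natAdd] at this
    omega

theorem exz_inj : Function.Injective (exz : Fin (n + κ) → Fin (n + (κ + κ))) := by
  intro a b
  refine Fin.addCases (fun a => ?_) (fun a => ?_) a <;>
    refine Fin.addCases (fun b => ?_) (fun b => ?_) b <;> intro h
  · rw [exz_l, exz_l] at h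
    have := congrArg Fin.val h
    simp only [xv, Fin.val_castAdd] at this
    exact congrArg _ (Fin.ext this)
  · rw [exz_l, exz_r] at h
    have := congrArg Fin.val h
    simp only [xv, zv, Fin.val_castAdd, Fin.val_natAdd] at this
    omega
  · rw [exz_l, exz_r] at h
    have := congrArg Fin.val h
    simp only [xv, zv, Fin.val_castAdd, Fin.val_natAdd] at this
    omega
  · rw [exz_r, exz_r] at h
    have := congrArg Fin.val h
    simp only [zv, Fin.val_natAdd] at this
    exact congrArg _ (Fin.ext (by omega))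

theorem coeff_gph_x (γ : Fin κ → k) (p : Fin κ → MvPolynomial (Fin n) k)
    (Φ : MvPolynomial (Fin (n + κ)) k) (w : Fin (n + κ) →₀ ℕ) :
    coeff (w.mapDomain exz) (gph γ p Φ) = coeff w Φ := by
  classical
  unfold gph
  rw [coeff_add, coeff_rename_mapDomain _ exz_inj, coeff_sum]
  rw [Finset.sum_eq_zero, add_zero]
  intro i _
  rw [coeff_X_mul', if_neg]
  rw [Finsupp.mem_support_iff, not_not, Finsupp.mapDomain_of_notMem_range]
  rintro ⟨j, hj⟩
  exact exz_ne i j hj

theorem coeff_gph_y (γ : Fin κ → k) (p : Fin κ → MvPolynomial (Fin n) k)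
    (Φ : MvPolynomial (Fin (n + κ)) k) (i : Fin κ) (w : Fin (n + (κ + κ)) →₀ ℕ)
    (hw : ∀ i', w (yv n i') = 0) :
    coeff (w + Finsupp.single (yv n i) 1) (gph γ p Φ) =
      coeff w (C (γ i) * X (zv n i) - rename (Fin.castAdd (κ + κ)) (p i)) := by
  classical
  unfold gph
  rw [coeff_add, coeff_rename_eq_zero, zero_add, coeff_sum, Finset.sum_eq_single i]
  · rw [coeff_X_mul', if_pos]
    · rw [show Fin.natAdd n (Fin.castAdd κ i) = yv n i from rfl, add_tsub_cancel_right]
      rfl
    · rw [Finsupp.mem_support_iff, show Fin.natAdd n (Fin.castAdd κ i) = yv n i from rfl]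
      rw [Finsupp.add_apply, Finsupp.single_eq_same]
      exact Nat.succ_ne_zero _
  · intro i' _ hi'
    rw [coeff_X_mul', if_neg]
    rw [Finsupp.mem_support_iff, not_not, show Fin.natAdd n (Fin.castAdd κ i') = yv n i' from rfl,
      Finsupp.add_apply, hw, Finsupp.single_eq_of_ne, add_zero]
    intro h
    apply hi'
    have := congrArg Fin.val h
    simp only [yv, Fin.val_castAdd, Fin.val_natAdd] at this
    exact Fin.ext (by omega)
  · intro h
    exact absurd (Finset.mem_univ _) h
  · intro u hu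
    exfalso
    have h1 := DFunLike.congr_fun hu (yv n i)
    rw [Finsupp.mapDomain_of_notMem_range, Finsupp.add_apply, Finsupp.single_eq_same, hw] at h1
    · omega
    · rintro ⟨j, hj⟩
      exact exz_ne i j hj

/-- **Negativity.** -/
theorem ray_pos' (γ : Fin κ → k) (hγ : ∀ i, γ i ≠ 0) (p : Fin κ → MvPolynomial (Fin n) k)
    (Φ : MvPolynomial (Fin (n + κ)) k)
    (hf : aeval (Fin.append X fun i => C (γ i)⁻¹ * p i) Φ ≠ (0 : MvPolynomial (Fin n) k))
    (u : Fin (n + (κ + κ)) → ℕ) (L : ℕ) (hL : 0 < L)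
    (hu : ∀ w ∈ (gph γ p Φ).support, L ≤ ∑ i, u i * w i) : κ * L < ∑ i, u i := by
  classical
  have hsingle : ∀ (s : Fin (n + (κ + κ))), ∑ i, u i * (Finsupp.single s 1 : _ →₀ ℕ) i = u s := by
    intro s
    rw [Finset.sum_eq_single s, Finsupp.single_eq_same, mul_one]
    · intro i _ hi
      rw [Finsupp.single_eq_of_ne hi, mul_zero]
    · intro h
      exact absurd (Finset.mem_univ _) h
  -- `y_i z_i`
  have hyz : ∀ i : Fin κ, L ≤ u (yv n i) + u (zv n i) := by
    intro i
    have h0 : ∀ i', (Finsupp.single (zv n i) 1 : Fin (n + (κ + κ)) →₀ ℕ) (yv n i') = 0 := by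
      intro i'
      rw [Finsupp.single_eq_of_ne]
      intro h
      have := congrArg Fin.val h
      simp only [yv, zv, Fin.val_castAdd, Fin.val_natAdd] at this
      have := i'.2
      omega
    have h1 := hu (Finsupp.single (zv n i) 1 + Finsupp.single (yv n i) 1) (by
      rw [mem_support_iff, coeff_gph_y γ p Φ i _ h0, coeff_sub, coeff_C_mul, coeff_X,
        if_pos rfl, mul_one, coeff_rename_eq_zero, sub_zero]
      · exact hγ i
      · intro w hw
        exfalso
        have h1 := DFunLike.congr_fun hw (zv n i)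
        rw [Finsupp.single_eq_same, Finsupp.mapDomain_of_notMem_range] at h1
        · exact absurd h1 (by norm_num)
        · rintro ⟨i', hi'⟩
          have := congrArg Fin.val hi'
          simp only [zv, Fin.val_castAdd, Fin.val_natAdd] at this
          omega)
    simp only [Finsupp.add_apply, mul_add, Finset.sum_add_distrib, hsingle] at h1
    omega
  have htot : ∑ i, u i = ∑ i : Fin n, u (xv κ i) + (∑ i : Fin κ, u (yv n i) +
      ∑ i : Fin κ, u (zv n i)) := by
    rw [Fin.sum_univ_add, Fin.sum_univ_add]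
    rfl
  have hsum : κ * L ≤ ∑ i : Fin κ, (u (yv n i) + u (zv n i)) := by
    have := Finset.sum_le_sum fun i (_ : i ∈ (Finset.univ : Finset (Fin κ))) => hyz i
    simpa using this
  rw [Finset.sum_add_distrib] at hsum
  by_contra hcon
  have hx0 : ∑ i : Fin n, u (xv κ i) = 0 := by omega
  have hx : ∀ i, u (xv κ i) = 0 := fun i => Finset.sum_eq_zero_iff.1 hx0 i (Finset.mem_univ i)
  have heq : ∀ i : Fin κ, u (yv n i) + u (zv n i) = L := by
    have h1 : ∑ i : Fin κ, (u (yv n i) + u (zv n i)) = ∑ i : Fin κ, L := by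
      rw [Finset.sum_add_distrib, Finset.sum_const, Finset.card_univ, Fintype.card_fin,
        smul_eq_mul]
      omega
    have h2 := (Finset.sum_eq_sum_iff_of_le fun i (_ : i ∈ (Finset.univ : Finset (Fin κ))) =>
      hyz i).1 h1.symm
    exact fun i => (h2 i (Finset.mem_univ i)).symm
  -- `p_i ≠ 0` gives `u (z_i) = 0`
  have hz : ∀ i : Fin κ, p i ≠ 0 → u (zv n i) = 0 := by
    intro i hp
    obtain ⟨w, hw⟩ := ne_zero_iff.1 hp
    have hnr : ∀ (j : Fin (κ + κ)),
        (w.mapDomain (Fin.castAdd (κ + κ))) (Fin.natAdd n j) = 0 := by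
      intro j
      rw [Finsupp.mapDomain_of_notMem_range]
      rintro ⟨i', hi'⟩
      have := congrArg Fin.val hi'
      simp only [Fin.val_castAdd, Fin.val_natAdd] at this
      omega
    have h1 := hu (w.mapDomain (Fin.castAdd (κ + κ)) + Finsupp.single (yv n i) 1) (by
      rw [mem_support_iff, coeff_gph_y γ p Φ i _ (fun i' => hnr _), coeff_sub, coeff_C_mul,
        coeff_X, if_neg, mul_zero, zero_sub, coeff_rename_mapDomain _ (Fin.castAdd_injective _ _)]
      · exact neg_ne_zero.2 hw
      · intro h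
        have h1 := DFunLike.congr_fun h (zv n i)
        rw [Finsupp.single_eq_same, show zv n i = Fin.natAdd n (Fin.natAdd κ i) from rfl, hnr]
          at h1
        exact absurd h1 (by norm_num))
    simp only [Finsupp.add_apply, mul_add, Finset.sum_add_distrib, hsingle] at h1
    have h2 : ∑ x, u x * (w.mapDomain (Fin.castAdd (κ + κ))) x = 0 := by
      refine Finset.sum_eq_zero fun x _ => ?_
      refine Fin.addCases (fun x => ?_) (fun x => ?_) x
      · have := hx x
        unfold xv at this
        rw [this, zero_mul]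
      · rw [hnr, mul_zero]
    rw [h2, zero_add] at h1
    have := heq i
    omega
  -- a monomial of `Φ` without the variables `z_i`, `p_i = 0`
  apply hf
  rw [Φ.as_sum, map_sum]
  refine Finset.sum_eq_zero fun w hw => ?_
  have h1 := hu (w.mapDomain exz) (by
    rw [mem_support_iff, coeff_gph_x]
    exact mem_support_iff.1 hw)
  have h2 : ∑ x, u x * (w.mapDomain exz) x = ∑ i : Fin κ, u (zv n i) * w (Fin.natAdd n i) := by
    rw [Fin.sum_univ_add, Fin.sum_univ_add]
    have e1 : ∑ i : Fin n, u (Fin.castAdd (κ + κ) i) * (w.mapDomain exz) (Fin.castAdd (κ + κ) i) =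
        0 := Finset.sum_eq_zero fun i _ => by
      have := hx i
      unfold xv at this
      rw [this, zero_mul]
    have e2 : ∑ i : Fin κ, u (Fin.natAdd n (Fin.castAdd κ i)) *
        (w.mapDomain exz) (Fin.natAdd n (Fin.castAdd κ i)) = 0 :=
      Finset.sum_eq_zero fun i _ => by
        rw [Finsupp.mapDomain_of_notMem_range, mul_zero]
        rintro ⟨j, hj⟩
        exact exz_ne i j hj
    rw [e1, e2, zero_add, zero_add]
    refine Finset.sum_congr rfl fun i _ => ?_
    have e3 : (w.mapDomain exz) (zv n i) = w (Fin.natAdd n i) := by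
      rw [← exz_r, Finsupp.mapDomain_apply exz_inj]
    change u (zv n i) * (w.mapDomain exz) (zv n i) = _
    rw [e3]
  rw [h2] at h1
  obtain ⟨i, -, hi⟩ := Finset.exists_ne_zero_of_sum_ne_zero
    (show ∑ i' : Fin κ, u (zv n i') * w (Fin.natAdd n i') ≠ 0 by omega)
  have hi1 : u (zv n i) ≠ 0 := left_ne_zero_of_mul hi
  have hi2 : w (Fin.natAdd n i) ≠ 0 := right_ne_zero_of_mul hi
  have hp : p i = 0 := by
    by_contra h
    exact hi1 (hz i h)
  rw [aeval_monomial, Finsupp.prod_fintype _ _ fun i => pow_zero _]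
  have h5 : ∏ i, (Fin.append X (fun i => C (γ i)⁻¹ * p i) i : MvPolynomial (Fin n) k) ^ w i = 0 := by
    refine Finset.prod_eq_zero (Finset.mem_univ (Fin.natAdd n i)) ?_
    rw [Fin.append_right, hp, mul_zero, zero_pow hi2]
  rw [h5, mul_zero]

end Pool.Agent.K6.H7.UF
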