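import Pool.Agent.K6.H7.UF.Gen2
import Pool.Agent.Y229.MS.Ind

set_option autoImplicit false

/-! # The Newton polyhedron of `G + y z` -/

namespace Pool.Agent.K6.H7.UF

open MvPolynomial
open Pool.Agent.W426.SM (gord IsRay face)
open Pool.Agent.W803.SM (gord_le exists_gord)
open Pool.Agent.W425.BF (BD)
open Pool.Agent.W425.SV (NP)
open Pool.Agent.TH216.MF (LocS SimH SimR InC)
open Pool.Agent.Y229.MS (exyz)

variable {r N : ℕ}

/-- the part of a weight in the variables of `G` -/
def fx (a : Fin (N + 2) → ℕ) : Fin N → ℕ := fun i => a (Fin.castAdd 2 i)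

/-- the weight of `y` -/
def ay (a : Fin (N + 2) → ℕ) : ℕ := a (Fin.natAdd N 0)
/-- the weight of `z` -/
def az (a : Fin (N + 2) → ℕ) : ℕ := a (Fin.natAdd N 1)

section sums

variable {R : Type} [CommSemiring R]

theorem sum_zero (v : Fin r → Fin N → ℕ) (u : Fin (N + 2) → R) :
    ∑ i, u i * (exyz v 0 i : R) = u (Fin.natAdd N 0) + u (Fin.natAdd N 1) := by
  rw [Fin.sum_univ_add]
  simp only [exyz, Fin.cons_zero, Fin.append_left, Fin.append_right, Nat.cast_zero, mul_zero,
    Finset.sum_const_zero, zero_add, Nat.cast_one, mul_one, Fin.sum_univ_two]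

theorem sum_succ (v : Fin r → Fin N → ℕ) (u : Fin (N + 2) → R) (j : Fin r) :
    ∑ i, u i * (exyz v j.succ i : R) = ∑ i, u (Fin.castAdd 2 i) * (v j i : R) := by
  rw [Fin.sum_univ_add]
  simp only [exyz, Fin.cons_succ, Fin.append_left, Fin.append_right, Nat.cast_zero, mul_zero,
    Finset.sum_const_zero, add_zero]

end sums

theorem sumN_zero (v : Fin r → Fin N → ℕ) (a : Fin (N + 2) → ℕ) :
    ∑ i, a i * exyz v 0 i = ay a + az a := by
  have := sum_zero (R := ℕ) v a
  simpa [ay, az] using this

theorem sumN_succ (v : Fin r → Fin N → ℕ) (a : Fin (N + 2) → ℕ) (j : Fin r) :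
    ∑ i, a i * exyz v j.succ i = ∑ i, fx a i * v j i := by
  have := sum_succ (R := ℕ) v a j
  simpa [fx] using this

theorem tot (a : Fin (N + 2) → ℕ) : ∑ i, a i = ∑ i, fx a i + (ay a + az a) := by
  rw [Fin.sum_univ_add, Fin.sum_univ_two]
  rfl

theorem gord_le_yz (v : Fin r → Fin N → ℕ) (a : Fin (N + 2) → ℕ) :
    gord (exyz v) a ≤ ay a + az a := by
  rw [← sumN_zero v a]
  exact gord_le _ _ _

theorem gord_le_x (hr : 0 < r) (v : Fin r → Fin N → ℕ) (a : Fin (N + 2) → ℕ) :
    gord (exyz v) a ≤ gord v (fx a) := by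
  obtain ⟨j, hj⟩ := exists_gord hr v (fx a)
  rw [← hj, ← sumN_succ]
  exact gord_le _ _ _

theorem gord_cases (v : Fin r → Fin N → ℕ) (a : Fin (N + 2) → ℕ) :
    gord (exyz v) a = ay a + az a ∨ ∃ j, gord (exyz v) a = ∑ i, fx a i * v j i := by
  obtain ⟨j, hj⟩ := exists_gord (Nat.succ_pos r) (exyz v) a
  rcases Fin.eq_zero_or_eq_succ j with rfl | ⟨j, rfl⟩
  · exact Or.inl (by rw [← hj, sumN_zero])
  · exact Or.inr ⟨j, by rw [← hj, sumN_succ]⟩

theorem face_zero (v : Fin r → Fin N → ℕ) (a : Fin (N + 2) → ℕ) :
    face (exyz v) a 0 ↔ ay a + az a = gord (exyz v) a := by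
  unfold face
  rw [sumN_zero]

theorem face_succ (v : Fin r → Fin N → ℕ) (a : Fin (N + 2) → ℕ) (j : Fin r) :
    face (exyz v) a j.succ ↔ ∑ i, fx a i * v j i = gord (exyz v) a := by
  unfold face
  rw [sumN_succ]

/-- **The rays of the fan of `G + y z`.** -/
theorem ray_exyz (hr : 0 < r) (v : Fin r → Fin N → ℕ) (a : Fin (N + 2) → ℕ)
    (ha : IsRay (exyz v) a) (hg : 0 < gord (exyz v) a) :
    IsRay v (fx a) ∧ gord v (fx a) = gord (exyz v) a ∧ ay a + az a = gord (exyz v) a ∧
      (ay a = 0 ∨ az a = 0) := by
  classical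
  obtain ⟨ha0, ha1⟩ := ha
  have hyz := gord_le_yz v a
  have hx := gord_le_x hr v a
  -- `x`-part is not zero
  have hx0 : fx a ≠ 0 := by
    intro h0
    obtain ⟨j, hj⟩ := exists_gord hr v (fx a)
    rw [h0] at hj
    have h1 : gord v (fx a) = 0 := by
      rw [h0, ← hj]
      simp
    omega
  obtain ⟨i0, hi0⟩ : ∃ i, fx a i ≠ 0 := by
    by_contra hcon
    push Not at hcon
    exact hx0 (funext hcon)
  -- `y z` is on the face
  have h1 : ay a + az a = gord (exyz v) a := by
    by_contra hne
    have hf0 : ¬ face (exyz v) a 0 := by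
      rw [face_zero]
      exact hne
    obtain ⟨s, hs0⟩ : ∃ s : Fin 2, a (Fin.natAdd N s) ≠ 0 := by
      rcases Nat.eq_zero_or_pos (ay a) with h2 | h2
      · refine ⟨1, ?_⟩
        show az a ≠ 0
        omega
      · exact ⟨0, by
          show ay a ≠ 0
          omega⟩
    obtain ⟨t, ht⟩ := ha1 (Fin.append (fun _ => 0) (fun s' => if s' = s then 1 else 0)) (by
      intro i
      refine Fin.addCases (fun i => ?_) (fun s' => ?_) i
      · intro _
        rw [Fin.append_left]
      · intro h3
        rw [Fin.append_right, if_neg]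
        intro h4
        rw [h4] at h3
        exact hs0 h3) (by
      intro j j' hj hj'
      rcases Fin.eq_zero_or_eq_succ j with rfl | ⟨j, rfl⟩
      · exact absurd hj hf0
      rcases Fin.eq_zero_or_eq_succ j' with rfl | ⟨j', rfl⟩
      · exact absurd hj' hf0
      rw [sum_succ, sum_succ]
      simp only [Fin.append_left, zero_mul])
    have h3 := ht (Fin.castAdd 2 i0)
    rw [Fin.append_left] at h3
    have h4 : t = 0 := by
      rcases mul_eq_zero.1 h3.symm with h5 | h5
      · exact h5
      · exfalso
        apply hi0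
        exact_mod_cast h5
    have h5 := ht (Fin.natAdd N s)
    rw [Fin.append_right, if_pos rfl, h4, zero_mul] at h5
    exact one_ne_zero h5
  -- some `v j` is on the face
  have h2 : gord v (fx a) = gord (exyz v) a := by
    by_contra hne
    have hf : ∀ j : Fin r, ¬ face (exyz v) a j.succ := by
      intro j hj
      rw [face_succ] at hj
      have := gord_le v (fx a) j
      omega
    obtain ⟨t, ht⟩ := ha1 (Fin.append (fun i => if i = i0 then 1 else 0) (fun _ => 0)) (by
      intro i
      refine Fin.addCases (fun i => ?_) (fun s' => ?_) i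
      · intro h3
        rw [Fin.append_left, if_neg]
        rintro rfl
        exact hi0 h3
      · intro _
        rw [Fin.append_right]) (by
      intro j j' hj hj'
      rcases Fin.eq_zero_or_eq_succ j with rfl | ⟨j, rfl⟩
      · rcases Fin.eq_zero_or_eq_succ j' with rfl | ⟨j', rfl⟩
        · rfl
        · exact absurd hj' (hf j')
      · exact absurd hj (hf j))
    have h3 := ht (Fin.castAdd 2 i0)
    rw [Fin.append_left, if_pos rfl] at h3
    have h4 := ht (Fin.natAdd N 0)
    have h5 := ht (Fin.natAdd N 1)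
    rw [Fin.append_right] at h4 h5
    have ht0 : t ≠ 0 := by
      rintro rfl
      rw [zero_mul] at h3
      exact one_ne_zero h3
    have h6 : ay a = 0 := by
      rcases mul_eq_zero.1 h4.symm with h7 | h7
      · exact absurd h7 ht0
      · exact_mod_cast h7
    have h7 : az a = 0 := by
      rcases mul_eq_zero.1 h5.symm with h7 | h7
      · exact absurd h7 ht0
      · exact_mod_cast h7
    omega
  obtain ⟨j0, hj0⟩ := exists_gord hr v (fx a)
  have hfs : ∀ j : Fin r, face v (fx a) j → face (exyz v) a j.succ := by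
    intro j hj
    rw [face_succ, ← h2]
    exact hj
  have hf0 : face (exyz v) a 0 := (face_zero v a).2 h1
  -- one of the weights is zero
  have h3 : ay a = 0 ∨ az a = 0 := by
    by_contra hcon
    push Not at hcon
    obtain ⟨t, ht⟩ := ha1 (Fin.append (fun _ => 0) (fun s => if s = 0 then 1 else -1)) (by
      intro i
      refine Fin.addCases (fun i => ?_) (fun s' => ?_) i
      · intro _
        rw [Fin.append_left]
      · intro h3
        exfalso
        fin_cases s'
        · exact hcon.1 h3
        · exact hcon.2 h3) (by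
      have key : ∀ j, ∑ i, (Fin.append (fun _ : Fin N => (0 : ℚ))
          (fun s : Fin 2 => if s = 0 then (1 : ℚ) else -1)) i * (exyz v j i : ℚ) = 0 := by
        intro j
        rcases Fin.eq_zero_or_eq_succ j with rfl | ⟨j, rfl⟩
        · rw [sum_zero, Fin.append_right, Fin.append_right]
          norm_num
        · rw [sum_succ]
          simp only [Fin.append_left, zero_mul, Finset.sum_const_zero]
      intro j j' _ _
      rw [key, key])
    have h4 := ht (Fin.natAdd N 0)
    have h5 := ht (Fin.natAdd N 1)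
    rw [Fin.append_right] at h4 h5
    norm_num at h4 h5
    have p1 : (0 : ℚ) < (a (Fin.natAdd N 0) : ℚ) := by
      exact_mod_cast Nat.pos_of_ne_zero hcon.1
    have p2 : (0 : ℚ) < (a (Fin.natAdd N 1) : ℚ) := by
      exact_mod_cast Nat.pos_of_ne_zero hcon.2
    have h6 : 0 < t := by
      by_contra h
      push Not at h
      have : t * (a (Fin.natAdd N 0) : ℚ) ≤ 0 := mul_nonpos_of_nonpos_of_nonneg h p1.le
      linarith
    have h7 : 0 < t * (a (Fin.natAdd N 1) : ℚ) := mul_pos h6 p2
    linarith
  refine ⟨⟨hx0, fun u hu hf => ?_⟩, h2, h1, h3⟩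
  set s : ℚ := ∑ i, u i * (v j0 i : ℚ) with hs
  obtain ⟨t, ht⟩ := ha1 (Fin.append u (fun s' => if a (Fin.natAdd N s') = 0 then 0 else s)) (by
    intro i
    refine Fin.addCases (fun i => ?_) (fun s' => ?_) i
    · intro h4
      rw [Fin.append_left]
      exact hu i h4
    · intro h4
      rw [Fin.append_right, if_pos h4]) (by
    have key : ∀ j, face (exyz v) a j → ∑ i, (Fin.append u
        (fun s' : Fin 2 => if a (Fin.natAdd N s') = 0 then (0 : ℚ) else s)) i *
          (exyz v j i : ℚ) = s := by
      intro j hj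
      rcases Fin.eq_zero_or_eq_succ j with rfl | ⟨j, rfl⟩
      · rw [sum_zero, Fin.append_right, Fin.append_right]
        rcases h3 with h4 | h4
        · have h5 : a (Fin.natAdd N 1) ≠ 0 := by
            intro h5
            have h6 : ay a = 0 := h4
            have h7 : az a = 0 := h5
            omega
          have h6 : a (Fin.natAdd N 0) = 0 := h4
          rw [if_pos h6, if_neg h5, zero_add]
        · have h5 : a (Fin.natAdd N 0) ≠ 0 := by
            intro h5
            have h6 : az a = 0 := h4
            have h7 : ay a = 0 := h5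
            omega
          have h6 : a (Fin.natAdd N 1) = 0 := h4
          rw [if_pos h6, if_neg h5, add_zero]
      · rw [sum_succ]
        simp only [Fin.append_left]
        rw [face_succ, ← h2] at hj
        exact hf j j0 hj hj0
    intro j j' hj hj'
    rw [key j hj, key j' hj'])
  refine ⟨t, fun i => ?_⟩
  have h4 := ht (Fin.castAdd 2 i)
  rw [Fin.append_left] at h4
  exact h4

end Pool.Agent.K6.H7.UF
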