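import Pool.Agent.K6.H7.UF.Pos
import Pool.Agent.TH216.MF.HDM

set_option autoImplicit false

/-! # Stably generic polynomials: the final form -/

namespace Pool.Agent.K6.H7.UF

open MvPolynomial Pool.Agent.H628R4.TP
open Pool.Agent.W425.ND (spa)
open Pool.Agent.W803.SM (gord_le exists_gord)
open Pool.Agent.W425.SV (NP)
open Pool.Agent.W428.MOT (zetaMu ratRingMu)
open Pool.Agent.Y229.MS (stabK)
open Pool.Agent.TH216.HD (poly InPoly ordA lev NonB1 Simp B1Dir)

variable {r N : ℕ}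

/-- the weight of an exponent in the Newton polyhedron -/
theorem weight_np (hr : 0 < r) {v : Fin r → Fin N → ℕ} {w : Fin N →₀ ℕ} (hw : NP v w)
    (a : Fin N → ℕ) : Pool.Agent.W426.SM.gord v a ≤ ∑ i, a i * w i := by
  obtain ⟨l, hl, hl1, hl2⟩ := hw
  have h1 : ((Pool.Agent.W426.SM.gord v a : ℕ) : ℝ) ≤ ((∑ i, a i * w i : ℕ) : ℝ) := by
    calc ((Pool.Agent.W426.SM.gord v a : ℕ) : ℝ)
        = ∑ j, l j * (Pool.Agent.W426.SM.gord v a : ℝ) := by rw [← Finset.sum_mul, hl1, one_mul]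
      _ ≤ ∑ j, l j * ((∑ i, a i * v j i : ℕ) : ℝ) := by
          refine Finset.sum_le_sum fun j _ => mul_le_mul_of_nonneg_left ?_ (hl j)
          exact_mod_cast gord_le v a j
      _ = ∑ i, (a i : ℝ) * ∑ j, l j * (v j i : ℝ) := by
          push_cast
          simp only [Finset.mul_sum]
          rw [Finset.sum_comm]
          refine Finset.sum_congr rfl fun i _ => Finset.sum_congr rfl fun j _ => ?_
          ring
      _ ≤ ∑ i, (a i : ℝ) * (w i : ℝ) :=
          Finset.sum_le_sum fun i _ => mul_le_mul_of_nonneg_left (hl2 i) (Nat.cast_nonneg _)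
      _ = ((∑ i, a i * w i : ℕ) : ℝ) := by push_cast; rfl
  exact_mod_cast h1

/-- the weights of the monomials of the polynomial -/
theorem weight_poly {F k : Type} [Field F] [Field k] [Algebra F k] (hr : 0 < r)
    {v : Fin r → Fin N → ℕ} (c : Fin r → k) {h : MvPolynomial (Fin N) F}
    (hh : ∀ w ∈ h.support, NP v w) (a : Fin N → ℕ) :
    ∀ w ∈ (spa v c + map (algebraMap F k) h).support,
      Pool.Agent.W426.SM.gord v a ≤ ∑ i, a i * w i := by
  classical
  intro w hw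
  rcases Finset.mem_union.1 (support_add hw) with h1 | h1
  · have h2 : coeff w (spa v c) ≠ 0 := mem_support_iff.1 h1
    unfold spa at h2
    rw [coeff_sum] at h2
    obtain ⟨j, -, hj⟩ := Finset.exists_ne_zero_of_sum_ne_zero h2
    have h3 : (C (c j) * ∏ i, X i ^ v j i : MvPolynomial (Fin N) k) =
        monomial (Finsupp.equivFunOnFinite.symm (v j)) (c j) := by
      rw [monomial_eq, Finsupp.prod_fintype _ _ fun i => pow_zero _]
      rfl
    rw [h3, coeff_monomial] at hj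
    have h4 : Finsupp.equivFunOnFinite.symm (v j) = w := by
      by_contra hcon
      rw [if_neg hcon] at hj
      exact hj rfl
    rw [← h4]
    exact gord_le v a j
  · refine weight_np hr (hh w ?_) a
    exact support_map_subset _ _ h1

theorem hypC_of {R : Type} [CommRing R] {v : Fin r → Fin N → ℕ} {h : MvPolynomial (Fin N) R}
    (hL : ∀ a : Fin N → ℕ, Pool.Agent.TH216.HD.IsRay v a → 0 < ordA v a →
      (∃ a' : Fin N → ℕ, 0 < ordA v a' ∧ NonB1 v False a' ∧ lev v a = lev v a') ∨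
      ∃ i, ∀ a' : Fin N → ℕ, Pool.Agent.TH216.HD.IsRay v a' → 0 < ordA v a' →
        lev v a' = lev v a → Simp v h a' ∨ B1Dir v h i a') : HypC v h := by
  intro a ha hg
  rcases hL a ha hg with h1 | ⟨i, hi⟩
  · exact Or.inl h1
  · right
    refine ⟨i, fun a' ha' hg' hs => ?_⟩
    exact (hi a' ha' hg' hs).imp (Pool.Agent.TH216.HD.simH_iff v h a').2 id

/-- **Stably generic polynomials.** -/
theorem res {F : Type} [Field F] [Algebra F ℂ] {n κ r : ℕ} (hr : 0 < r)
    (v : Fin r → Fin (n + (κ + κ)) → ℕ) (hv : Function.Injective v) (hv0 : ∀ j, v j ≠ 0)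
    (h : MvPolynomial (Fin (n + (κ + κ))) F) (hh : ∀ w ∈ h.support, InPoly v w)
    (hL : HypC v h) :
    ∃ g : MvPolynomial (Fin r) F, g ≠ 0 ∧
      ∀ (k : Type) [Field k] [Algebra F k] [Algebra k ℂ] [IsScalarTower F k ℂ] (c : Fin r → k),
      aeval c g ≠ 0 →
      (∀ f : MvPolynomial (Fin n) k, f.totalDegree ≠ 0 →
        ∀ φ : MvPolynomial (Fin (n + (κ + κ))) k ≃ₐ[k] MvPolynomial (Fin (n + (κ + κ))) k,
        φ (stabK f κ) = poly v c h →
        ∃ S : Finset (ℤ × ℤ), (∀ p ∈ S, 0 < p.2 ∧ ∀ b : Polynomial ℂ,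
          IsBFunction (map (algebraMap k ℂ) f) b → b.eval ((p.1 : ℂ) / p.2) = 0) ∧
          zetaMu f ∈ ratRingMu f S) ∧
      (∀ γ : Fin κ → k, (∀ i, γ i ≠ 0) → ∀ (p : Fin κ → MvPolynomial (Fin n) k)
        (Φ : MvPolynomial (Fin (n + κ)) k), gph γ p Φ = poly v c h →
        ∀ f : MvPolynomial (Fin n) k, f = aeval (Fin.append X fun i => C (γ i)⁻¹ * p i) Φ →
        f.totalDegree ≠ 0 →
        ∃ S : Finset (ℤ × ℤ), (∀ p ∈ S, p.1 < 0) ∧ (∀ p ∈ S, 0 < p.2 ∧ ∀ b : Polynomial ℂ,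
          IsBFunction (map (algebraMap k ℂ) f) b → b.eval ((p.1 : ℂ) / p.2) = 0) ∧
          zetaMu f ∈ ratRingMu f S) := by
  obtain ⟨g, hg, H⟩ := mainG hr v hv hv0 h hh hL
  refine ⟨g, hg, fun k _ _ _ _ c hc => ⟨fun f hf φ hφ => ?_, fun γ hγ p Φ hG f hff hf => ?_⟩⟩
  · obtain ⟨S, hS, hz⟩ := H k c hc f hf φ hφ
    exact ⟨S, fun p hp => ⟨(hS p hp).1, (hS p hp).2.2⟩, hz⟩
  · obtain ⟨φ, hφ⟩ := Pool.Agent.Y925.MS.gk k γ hγ p Φ
    rw [← hff] at hφ
    have hφ' : φ (stabK f κ) = spa v c + map (algebraMap F k) h := by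
      rw [hφ]
      exact hG
    obtain ⟨S, hS, hz⟩ := H k c hc f hf φ hφ'
    refine ⟨S, fun q hq => ?_, fun p hp => ⟨(hS p hp).1, (hS p hp).2.2⟩, hz⟩
    rcases (hS q hq).2.1 with rfl | ⟨a, ha, hg, rfl⟩
    · norm_num
    · have hf0 : aeval (Fin.append X fun i => C (γ i)⁻¹ * p i) Φ ≠
          (0 : MvPolynomial (Fin n) k) := by
        rw [← hff]
        rintro rfl
        exact hf totalDegree_zero
      have h1 := ray_pos' γ hγ p Φ hf0 a _ hg (by
        rw [hG]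
        exact weight_poly hr c hh a)
      show -((∑ i, a i : ℕ) : ℤ) + κ * (Pool.Agent.W426.SM.gord v a : ℤ) < 0
      have h2 : ((κ * Pool.Agent.W426.SM.gord v a : ℕ) : ℤ) < ((∑ i, a i : ℕ) : ℤ) := by
        exact_mod_cast h1
      push_cast at h2 ⊢
      linarith

end Pool.Agent.K6.H7.UF
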